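import Pool.Agent.N600.L3.Stm

/-!
# L3/CNT2: the counting theorem (after N558/G3/CNT)
-/

set_option autoImplicit false

namespace Pool.Agent.N622.L3

open Pool.Agent.N600.L3
open Pool.Agent.N600.G3 (Crossed AA)
open scoped Pointwise

universe u

theorem b_one {M F : Type*} [Group M] [Field F] {χ : M →* Fˣ} {b : M → F} (hb : Crossed χ b) :
    b 1 = 0 := by
  have h := hb 1 1
  rw [mul_one, map_one, Units.val_one, one_mul] at h
  have h2 : b 1 + b 1 = b 1 + 0 := by rw [add_zero]; exact h.symm
  exact add_left_cancel h2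

theorem b_prod {M F : Type*} [Group M] [Field F] {χ : M →* Fˣ} {b : M → F} (hb : Crossed χ b)
    (l : List M) (hl : ∀ x ∈ l, b x = 0) : b l.prod = 0 := by
  induction l with
  | nil => rw [List.prod_nil]; exact b_one hb
  | cons a l ih =>
    rw [List.prod_cons, hb, hl a List.mem_cons_self,
      ih fun x hx => hl x (List.mem_cons_of_mem _ hx), mul_zero, add_zero]

theorem b_AA {M F : Type*} [Group M] [Field F] {χ : M →* Fˣ} {b : M → F} (hb : Crossed χ b)
    {K : ℕ} (c : Fin K → M) (hc : ∀ j, b (c j) = 0) (x : Fin K → Bool) : b (AA c x) = 0 := by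
  unfold AA
  refine b_prod hb _ fun y hy => ?_
  rw [List.mem_ofFn] at hy
  obtain ⟨j, rfl⟩ := hy
  by_cases h : x j
  · simp only [h, if_true]; exact hc j
  · simp only [h]; exact b_one hb

theorem phi_nonneg {B : ℝ} (hB : 1 ≤ B) : 0 ≤ phi B := by
  unfold phi
  have h1 : 0 ≤ 1 - 1 / B := by
    rw [sub_nonneg, div_le_one (by linarith)]
    exact hB
  have h2 : Real.exp (-(1 - 1 / B)) ≤ 1 := Real.exp_le_one_iff.2 (by linarith)
  have h3 : 0 < Real.exp (-(1 - 1 / B)) := Real.exp_pos _
  have h4 : Real.log ((3 + Real.exp (-(1 - 1 / B))) / 4) ≤ 0 :=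
    Real.log_nonpos (by positivity) (by linarith)
  linarith

theorem tors {F : Type u} [Field F] (x : Fˣ) :
    (QuotientGroup.mk' (CommGroup.torsion Fˣ) x ≠ 1) ↔ ∀ n > 0, x ^ n ≠ 1 := by
  rw [Ne, QuotientGroup.mk'_apply, QuotientGroup.eq_one_iff]
  change ¬ IsOfFinOrder x ↔ _
  rw [isOfFinOrder_iff_pow_eq_one]
  push Not
  rfl

theorem t_cnt2 (h1 : Pool.Agent.N600.G3.S_ENT2.{u}) (h2 : Pool.Agent.N600.G3.S_ENT3.{u})
    (h3 : S_LIN.{u}) (h4 : Pool.Agent.N600.G3.S_PRD.{u}) (h5 : S_TRI2.{u}) (h6 : S_EPS2.{u}) :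
    S_CNT2.{u} := by
  intro M _ F _ _ K χ b hb c d hbc hbd hdd htor hint B hB hexp
  classical
  obtain ⟨ε, hε⟩ := h6 M (Fˣ ⧸ CommGroup.torsion Fˣ) K
    (fun k => (QuotientGroup.mk' (CommGroup.torsion Fˣ)).comp (χ k)) c
    (fun i => (tors _).2 (htor i))
  refine ⟨ε, fun R => ?_⟩
  obtain ⟨U, hU⟩ : ∃ U, U = AA c ε := ⟨_, rfl⟩
  rw [← hU] at hε ⊢
  have hbU : ∀ k, b k U = 0 := fun k => by
    rw [hU]
    exact b_AA (hb k) c (hbc k) ε
  choose g σ hg hσ hX using fun k => h5 M F (χ k) (b k) (hb k) K d k (hbd k)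
  let u : Fin K → F := fun k => (χ k U : F)
  let row : (Fin K → Fin R → Bool) → Fin R → Fin K → Bool := fun δ r j => δ j r
  let P : (Fin R → Fin K → Bool) → M := fun δ =>
    (List.ofFn fun r => AA d (δ r) * U * (AA d (δ r))⁻¹).prod
  let X : (Fin K → Fin R → Bool) → Fin K → F := fun δ k => b k (P (row δ))
  have hform : ∀ δ k, X δ k = (1 - u k) * ∑ r : Fin R, u k ^ (r : ℕ) *
      (g k (row δ r) + (σ k (row δ r) : F) * (if δ k r then b k (d k) else 0)) := by
    intro δ k
    show b k (List.ofFn fun r => AA d (row δ r) * U * (AA d (row δ r))⁻¹).prod = _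
    rw [h4 M F (χ k) (b k) (hb k) U (hbU k) R (fun r => AA d (row δ r))]
    congr 1
    refine Finset.sum_congr rfl fun r _ => ?_
    rw [hX]
  have hupd : ∀ δ k x, X (Function.update δ k x) k =
      (1 - u k) * ∑ r : Fin R, u k ^ (r : ℕ) * g k (row δ r) +
      (1 - u k) * b k (d k) * ∑ r : Fin R, u k ^ (r : ℕ) * (σ k (row δ r) : F) *
        (if x r then 1 else 0) := by
    intro δ k x
    rw [hform, Finset.mul_sum, Finset.mul_sum, Finset.mul_sum, ← Finset.sum_add_distrib]
    refine Finset.sum_congr rfl fun r _ => ?_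
    have e := hg k (row (Function.update δ k x) r) (row δ r) (fun i hi => by
      show Function.update δ k x i r = δ i r
      rw [Function.update_of_ne hi.ne])
    rw [e.1, e.2, Function.update_self]
    split_ifs
    · ring
    · ring
  have hdep : ∀ k δ δ', (∀ i ≤ k, δ i = δ' i) → X δ k = X δ' k := by
    intro k δ δ' h
    rw [hform, hform]
    congr 1
    refine Finset.sum_congr rfl fun r _ => ?_
    have e := hg k (row δ r) (row δ' r) (fun i hi => congrFun (h i hi.le) r)
    rw [e.1, e.2, congrFun (h k le_rfl) r]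
  have hE2 := h1 (Fin K → Fin R → Bool) (Fin K → F) X
  have hE3 := h2 K (Fin R → Bool) F X hdep
  -- the good characters
  have hgoodk : ∀ k, (∀ n > 0, (χ k U) ^ n ≠ 1) →
      ∑ δ : Fin K → Fin R → Bool,
        Real.log (Nat.card {x : Fin R → Bool // X (Function.update δ k x) k = X δ k}) ≤
      2 ^ (K * R) * (R * (Real.log 2 - phi B)) := by
    intro k hk
    have hu1 : 1 - u k ≠ 0 := by
      intro h
      apply hk 1 one_pos
      rw [pow_one]
      exact Units.ext (by rw [Units.val_one]; exact (sub_eq_zero.1 h).symm)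
    have hκ : (1 - u k) * b k (d k) ≠ 0 := mul_ne_zero hu1 (hdd k)
    have hexpk : Expa F ((χ k U : Fˣ) : F) B := by
      rcases hexp k U with ⟨n, hn, hn1⟩ | h
      · exact absurd hn1 (hk n hn)
      · exact h
    have hinv : ∀ m, IsIntegral ℤ (((χ k m)⁻¹ : Fˣ) : F) := by
      intro m
      rw [← map_inv]
      exact hint k m⁻¹
    have h7 := h3 F (χ k U) B hB hexpk (hint k U) (hinv U) K k (σ k)
      (fun x x' h => (hg k x x' h).2) (fun x => by
        obtain ⟨m, hm⟩ := hσ k x
        rw [hm]
        exact ⟨hint k m, hinv m⟩) R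
    refine le_trans (le_of_eq ?_) h7
    refine Finset.sum_congr rfl fun δ _ => ?_
    have h8 : Nat.card {x : Fin R → Bool // X (Function.update δ k x) k = X δ k} =
        Nat.card {x : Fin R → Bool //
          ∑ r : Fin R, ((χ k U : Fˣ) : F) ^ (r : ℕ) * (σ k (fun i => δ i r) : F) *
            (if x r then 1 else 0) =
          ∑ r : Fin R, ((χ k U : Fˣ) : F) ^ (r : ℕ) * (σ k (fun i => δ i r) : F) *
            (if δ k r then 1 else 0)} := by
      refine Nat.card_congr (Equiv.subtypeEquivRight fun x => ?_)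
      have h9 := hupd δ k (δ k)
      rw [Function.update_eq_self] at h9
      rw [hupd, h9]
      constructor
      · intro h
        exact mul_left_cancel₀ hκ (add_left_cancel h)
      · intro h
        have h10 : ∑ r : Fin R, u k ^ (r : ℕ) * (σ k (row δ r) : F) * (if x r then 1 else 0) =
            ∑ r : Fin R, u k ^ (r : ℕ) * (σ k (row δ r) : F) * (if δ k r then 1 else 0) := h
        rw [h10]
    rw [h8]
  have hbadk : ∀ k, ∑ δ : Fin K → Fin R → Bool,
        Real.log (Nat.card {x : Fin R → Bool // X (Function.update δ k x) k = X δ k}) ≤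
      2 ^ (K * R) * (R * Real.log 2) := by
    intro k
    have h7 : ∀ δ ∈ (Finset.univ : Finset (Fin K → Fin R → Bool)),
        Real.log (Nat.card {x : Fin R → Bool // X (Function.update δ k x) k = X δ k}) ≤
          R * Real.log 2 := by
      intro δ _
      have h8 : Nat.card {x : Fin R → Bool // X (Function.update δ k x) k = X δ k} ≤ 2 ^ R := by
        have h9 : Nat.card {x : Fin R → Bool // X (Function.update δ k x) k = X δ k} ≤
          Nat.card (Fin R → Bool) := Nat.card_le_card_of_injective _ Subtype.val_injective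
        have h10 : Nat.card (Fin R → Bool) = 2 ^ R := by
          rw [Nat.card_eq_fintype_card, Fintype.card_fun, Fintype.card_bool, Fintype.card_fin]
        rwa [h10] at h9
      have h11 : 0 < Nat.card {x : Fin R → Bool // X (Function.update δ k x) k = X δ k} := by
        have : Nonempty {x : Fin R → Bool // X (Function.update δ k x) k = X δ k} :=
          ⟨⟨δ k, by rw [Function.update_eq_self]⟩⟩
        exact Nat.card_pos
      have h12 : Real.log (Nat.card {x : Fin R → Bool // X (Function.update δ k x) k = X δ k}) ≤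
          Real.log ((2 : ℝ) ^ R) :=
        Real.log_le_log (by exact_mod_cast h11) (by exact_mod_cast h8)
      rwa [Real.log_pow] at h12
    refine (Finset.sum_le_card_nsmul _ _ _ h7).trans (le_of_eq ?_)
    rw [Finset.card_univ, Fintype.card_fun, Fintype.card_fun, Fintype.card_bool, Fintype.card_fin,
      Fintype.card_fin, nsmul_eq_mul]
    push_cast
    rw [← pow_mul, mul_comm R K]
  set Gd : Finset (Fin K) := Finset.univ.filter fun k => ∀ n > 0, (χ k U) ^ n ≠ 1 with hGd
  have hgood : (K : ℝ) / 2 ≤ (Gd.card : ℝ) := by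
    have h7 : Set.ncard {k : Fin K |
        ((QuotientGroup.mk' (CommGroup.torsion Fˣ)).comp (χ k)) U ≠ 1} = Gd.card := by
      rw [← Set.ncard_coe_finset]
      congr 1
      ext k
      rw [hGd, Finset.coe_filter]
      simp only [Finset.mem_univ, true_and]
      exact tors (χ k U)
    rw [h7] at hε
    have : (K : ℝ) ≤ 2 * (Gd.card : ℝ) := by exact_mod_cast hε
    linarith
  have hsum : ∑ δ : Fin K → Fin R → Bool, ∑ k,
      Real.log (Nat.card {x : Fin R → Bool // X (Function.update δ k x) k = X δ k}) ≤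
      2 ^ (K * R) * (K * (R * Real.log 2) - Gd.card * (R * phi B)) := by
    rw [Finset.sum_comm]
    have h7 : ∀ k ∈ (Finset.univ : Finset (Fin K)), ∑ δ : Fin K → Fin R → Bool,
        Real.log (Nat.card {x : Fin R → Bool // X (Function.update δ k x) k = X δ k}) ≤
        2 ^ (K * R) * (R * Real.log 2) - (if k ∈ Gd then 2 ^ (K * R) * (R * phi B) else 0) := by
      intro k _
      by_cases hk : k ∈ Gd
      · rw [if_pos hk]
        refine (hgoodk k (Finset.mem_filter.1 hk).2).trans (le_of_eq ?_)
        ring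
      · rw [if_neg hk, sub_zero]
        exact hbadk k
    refine (Finset.sum_le_sum h7).trans (le_of_eq ?_)
    rw [Finset.sum_sub_distrib, Finset.sum_const, Finset.card_univ, Fintype.card_fin,
      ← Finset.sum_filter, Finset.filter_mem_eq_inter, Finset.univ_inter, Finset.sum_const,
      nsmul_eq_mul, nsmul_eq_mul]
    ring
  set N : ℕ := Nat.card (Set.range X) with hN
  have hNpos : 0 < N := by
    rw [hN, Nat.card_coe_set_eq]
    exact (Set.ncard_pos (Set.finite_range X)).2 (Set.range_nonempty X)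
  have hcard : ((Fintype.card (Fin K → Fin R → Bool) : ℕ) : ℝ) = 2 ^ (K * R) := by
    rw [Fintype.card_fun, Fintype.card_fun, Fintype.card_bool, Fintype.card_fin,
      Fintype.card_fin]
    push_cast
    rw [← pow_mul, mul_comm R K]
  rw [hcard, Real.log_pow] at hE2
  have hall := (hE2.trans hE3).trans hsum
  have hp : (0 : ℝ) < 2 ^ (K * R) := by positivity
  have h8 := le_of_mul_le_mul_left hall hp
  have hlogN : (K : ℝ) * R * phi B / 2 ≤ Real.log N := by
    have h9 : (K : ℝ) / 2 * (R * phi B) ≤ Gd.card * (R * phi B) :=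
      mul_le_mul_of_nonneg_right hgood (mul_nonneg (Nat.cast_nonneg _) (phi_nonneg hB))
    push_cast at h8
    nlinarith [h8, h9]
  refine hlogN.trans (Real.log_le_log (by exact_mod_cast hNpos) ?_)
  have hsub : Set.range X ⊆ (fun y : M => fun k => b k y) '' Set.range P := by
    rintro _ ⟨δ, rfl⟩
    exact ⟨P (row δ), ⟨row δ, rfl⟩, rfl⟩
  have hPfin : (Set.range P).Finite := Set.finite_range P
  rw [hN, Nat.card_coe_set_eq, Nat.card_coe_set_eq]
  exact_mod_cast (Set.ncard_le_ncard hsub (hPfin.image _)).trans (Set.ncard_image_le hPfin)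

end Pool.Agent.N622.L3
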